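import Pool.Agent.P.MP_90314f_co.Red
import Pool.Agent.P.MP_90314f_co.Neg

set_option autoImplicit false

namespace Pool.Agent.Results.MP_90314f_co.Classification

open Pool.Agent.P.MP_90314f_co

theorem result (d j : ℕ) (hj : 1 ≤ j) (hd : j + 1 ≤ d) : PeriodConj d j ↔ j + 1 = d := by
  constructor
  · intro h
    by_contra hne
    exact main_neg hj (by omega) h
  · rintro rfl r R hr hR
    refine ⟨(1 / (5 * R)) ^ 2, by positivity, fun X hX ⟨t₀, h⟩ => main_pos hr hR hX fun t₁ => ?_⟩
    obtain ⟨h1, h2⟩ := h (max t₀ t₁ + 1) (by linarith [le_max_left t₀ t₁])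
    refine ⟨max t₀ t₁ + 1, by linarith [le_max_right t₀ t₁], h1, ?_⟩
    rw [show j + 1 - j + 1 = 2 by omega] at h2
    convert h2 using 1
    ring

end Pool.Agent.Results.MP_90314f_co.Classification
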