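import Pool.Agent.P.MP_90314f_co.Red

set_option autoImplicit false

namespace Pool.Agent.Results.MP_90314f_co.Quadratic

open Pool.Agent.P.MP_90314f_co

theorem result (d : ℕ) (r R : ℝ) (X : Set (EuclideanSpace ℝ (Fin d))) (hr : 0 < r) (hR : 0 < R)
    (hX : IsDelone r R X)
    (hp : ∀ t₀ : ℝ, ∃ t : ℝ, t₀ < t ∧ (patches X t).Finite ∧
      ((patches X t).ncard : ℝ) < (t / (5 * R)) ^ 2) :
    HasPeriods X (d - 1) :=
  main_pos hr hR hX hp

end Pool.Agent.Results.MP_90314f_co.Quadratic
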